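import Pool.Agent.Helper42.DB.Goals2

namespace Pool.Agent.Helper42.DB.PkVIT1

theorem fin_set (I : Finset (ℕ × ℕ)) :
    {t : ℕ | ∃ x ∈ I, x.1 ≤ t ∧ t ≤ x.1 + x.2}.Finite := by
  have : {t : ℕ | ∃ x ∈ I, x.1 ≤ t ∧ t ≤ x.1 + x.2} ⊆
      ((I.biUnion fun x => Finset.Icc x.1 (x.1 + x.2) : Finset ℕ) : Set ℕ) := by
    rintro t ⟨x, hx, h1, h2⟩
    simp only [Finset.coe_biUnion, Set.mem_iUnion, Finset.mem_coe, Finset.mem_Icc]
    exact ⟨x, hx, h1, h2⟩
  exact (Finset.finite_toSet _).subset this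

theorem aux (n : ℕ) : ∀ I : Finset (ℕ × ℕ), I.card ≤ n → ∃ J ⊆ I,
    (∀ x ∈ J, ∀ y ∈ J, x ≠ y → x.1 + x.2 < y.1 ∨ y.1 + y.2 < x.1) ∧
    Set.ncard {t : ℕ | ∃ x ∈ I, x.1 ≤ t ∧ t ≤ x.1 + x.2} ≤ 3 * ∑ x ∈ J, (x.2 + 1) := by
  induction n with
  | zero =>
    intro I hI
    have hI0 : I = ∅ := Finset.card_eq_zero.1 (Nat.le_zero.1 hI)
    subst hI0
    exact ⟨∅, Finset.Subset.refl _, by simp, by simp⟩
  | succ n ih =>
    intro I hI
    rcases I.eq_empty_or_nonempty with h0 | hne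
    · subst h0
      exact ⟨∅, Finset.Subset.refl _, by simp, by simp⟩
    obtain ⟨x, hx, hmax⟩ := Finset.exists_max_image I (fun y => y.2) hne
    let I' := I.filter fun y => x.1 + x.2 < y.1 ∨ y.1 + y.2 < x.1
    have hxI' : x ∉ I' := by
      simp only [I', Finset.mem_filter, not_and]
      intro _
      omega
    have hsub : I' ⊆ I := Finset.filter_subset _ _
    have hss : I' ⊂ I := by
      refine ⟨hsub, fun h => hxI' (h hx)⟩
    have hcard : I'.card ≤ n := by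
      have := Finset.card_lt_card hss
      omega
    obtain ⟨J', hJ'I', hdis, hcnt⟩ := ih I' hcard
    have hxJ' : x ∉ J' := fun h => hxI' (hJ'I' h)
    have hJ'x : ∀ y ∈ J', x.1 + x.2 < y.1 ∨ y.1 + y.2 < x.1 := by
      intro y hy
      exact (Finset.mem_filter.1 (hJ'I' hy)).2
    refine ⟨insert x J', ?_, ?_, ?_⟩
    · intro y hy
      rcases Finset.mem_insert.1 hy with rfl | hy
      · exact hx
      · exact hsub (hJ'I' hy)
    · intro y hy z hz hyz
      rcases Finset.mem_insert.1 hy with hy1 | hy1 <;> rcases Finset.mem_insert.1 hz with hz1 | hz1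
      · exact absurd (hy1.trans hz1.symm) hyz
      · rw [hy1]
        exact hJ'x z hz1
      · rw [hz1]
        have := hJ'x y hy1
        tauto
      · exact hdis y hy1 z hz1 hyz
    · rw [Finset.sum_insert hxJ']
      have hcov : {t : ℕ | ∃ y ∈ I, y.1 ≤ t ∧ t ≤ y.1 + y.2} ⊆
          {t : ℕ | ∃ y ∈ I', y.1 ≤ t ∧ t ≤ y.1 + y.2} ∪
            ((Finset.Icc (x.1 - x.2) (x.1 + 2 * x.2) : Finset ℕ) : Set ℕ) := by
        rintro t ⟨y, hy, h1, h2⟩
        by_cases hc : x.1 + x.2 < y.1 ∨ y.1 + y.2 < x.1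
        · left
          exact ⟨y, Finset.mem_filter.2 ⟨hy, hc⟩, h1, h2⟩
        · right
          have hm : y.2 ≤ x.2 := hmax y hy
          push Not at hc
          simp only [Finset.coe_Icc, Set.mem_Icc]
          omega
      have hfin : ({t : ℕ | ∃ y ∈ I', y.1 ≤ t ∧ t ≤ y.1 + y.2} ∪
            ((Finset.Icc (x.1 - x.2) (x.1 + 2 * x.2) : Finset ℕ) : Set ℕ)).Finite :=
        (fin_set I').union (Finset.finite_toSet _)
      have h3 := (Set.ncard_le_ncard hcov hfin).trans (Set.ncard_union_le _ _)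
      rw [Set.ncard_coe_finset, Nat.card_Icc] at h3
      omega

theorem thm : G_VIT1 := fun I => aux I.card I le_rfl

end Pool.Agent.Helper42.DB.PkVIT1
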